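import Pool.Agent.KS6_13.YF.Count

/-!
# The automorphism group of the tree of Young–Fibonacci paths and its finite levels

Words over `{1, 2}` are lists of Booleans, `1` is `false` and `2` is `true`. The vertices of the tree `T`
are the saturated chains, written as lists `[xₙ, …, x₀]` from the top down.
-/

set_option autoImplicit false

namespace Pool.Agent.Results.MP_ac28de_co.FiniteLevels

open List Pool.Agent.Results.MP_ac28de_co.Aut

lemma sp_φ (x : Word) : sp (φ x) = sp x := by
  rcases h : sp x with _ | _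
  · rcases h' : sp (φ x) with _ | _
    · rfl
    · exfalso
      have h1 := sp_fix h'
      rw [φφ] at h1
      rw [h1, h'] at h
      exact absurd h (by simp)
  · rw [sp_fix h, h]

lemma sp_tw (s : Bool) (x : Word) : sp (tw s x) = sp x := by
  cases s
  · rfl
  · exact sp_φ x

lemma tw_tw (s t : Bool) (x : Word) : tw s (tw t x) = tw (xor s t) x := by
  cases s <;> cases t <;> simp [tw, φφ]

lemma comp_aux (ε ε' : List Word → Bool) (l : List Word) :
    F ε (F ε' l) = F (fun d => xor (ε (F ε' d)) (ε' d)) l ∧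
      xor (nxt ε (F ε' l)) (nxt ε' l) = nxt (fun d => xor (ε (F ε' d)) (ε' d)) l := by
  induction l with
  | nil => exact ⟨rfl, rfl⟩
  | cons x l ih =>
    have e : F ε' (x :: l) = tw (nxt ε' l) x :: F ε' l := rfl
    constructor
    · rw [e]
      show tw (nxt ε (F ε' l)) (tw (nxt ε' l) x) :: F ε (F ε' l) = tw (nxt _ l) x :: F _ l
      rw [tw_tw, ih.2, ih.1]
    · show xor (nxt ε (tw (nxt ε' l) x :: F ε' l)) (if sp x then ε' (x :: l) else nxt ε' l) =
        if sp x then xor (ε (F ε' (x :: l))) (ε' (x :: l)) else nxt _ l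
      have h1 : nxt ε (tw (nxt ε' l) x :: F ε' l) =
          if sp x then ε (F ε' (x :: l)) else nxt ε (F ε' l) := by
        show (if sp (tw (nxt ε' l) x) then ε (tw (nxt ε' l) x :: F ε' l) else nxt ε (F ε' l)) = _
        rw [sp_tw, e]
      rw [h1]
      cases sp x
      · exact ih.2
      · rfl

lemma card_switch (k : ℕ) :
    {v : V | v.1.headI = replicate k true ++ [false]}.ncard = 2 ^ k * k.factorial := by
  rw [← Pool.Agent.KS6_13.YF.e_br k]
  have hb : Function.Bijective (fun p : Pool.Agent.KS6_13.YF.En (Pool.Agent.KS6_13.YF.br k) =>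
      (⟨⟨Pool.Agent.KS6_13.YF.br k :: p.1, p.2⟩, rfl⟩ :
        {v : V | v.1.headI = replicate k true ++ [false]})) := by
    constructor
    · intro p q h
      have h1 := congrArg (fun s => s.1.1) h
      exact Subtype.ext (List.cons.inj h1).2
    · rintro ⟨⟨l, hv⟩, hs⟩
      rcases l with _ | ⟨x, l⟩
      · cases hv
      · have hs' : x = Pool.Agent.KS6_13.YF.br k := hs
        subst hs'
        exact ⟨⟨l, hv⟩, rfl⟩
  exact (Nat.card_congr (Equiv.ofBijective _ hb)).symm

/-- **`Aut(T)` and its finite levels.** Call a vertex of `T` a switch if its last word is `2^k 1` for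
some `k ≥ 0`. For a function `ε` from lists of words to `{0, 1}` let `F ε` change a chain
`(x₀, …, xₙ)` into `(y₀, …, yₙ)`, where `yᵢ` is `φ xᵢ` (a final `2` and a final `11` exchanged) if `ε` is
`1` at the last switch among the chains `(x₀, …, x_j)`, `j < i`, and `yᵢ = xᵢ` otherwise.
(1) Every `F ε` is an automorphism of `T`, (2) there are no others, (3) `F ε` and `F ε'` are the same
automorphism if and only if `ε` and `ε'` agree on the switches, (4) the composition is given by
`F ε ∘ F ε' = F (d ↦ ε (F ε' d) + ε' d)`.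
(5) For every `k` exactly `2^k k!` vertices have the last word `2^k 1`.
(6) For every `n` exactly `2^(∑_{k < ⌊n/2⌋} 2^k k!)` different maps arise as the restrictions of the
automorphisms of `T` to the ball of radius `n` around the root. -/
theorem result :
    (∀ ε, ∃ g : T ≃g T, ∀ v, (g v).1 = F ε v.1) ∧
    (∀ g : T ≃g T, ∃ ε, ∀ v, (g v).1 = F ε v.1) ∧
    (∀ ε ε', (∀ v : V, F ε v.1 = F ε' v.1) ↔ ∀ v : V, sp v.1.headI → ε v.1 = ε' v.1) ∧
    (∀ ε ε' l, F ε (F ε' l) = F (fun d => xor (ε (F ε' d)) (ε' d)) l) ∧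
    (∀ k : ℕ, {v : V | v.1.headI = replicate k true ++ [false]}.ncard = 2 ^ k * k.factorial) ∧
    (∀ n : ℕ, (Set.range fun (g : T ≃g T) (v : {v : V // v.1.length ≤ n + 1}) => g v.1).ncard =
      2 ^ ∑ k ∈ Finset.range (n / 2), 2 ^ k * k.factorial) := by
  obtain ⟨r1, r2, r3⟩ := Pool.Agent.Results.MP_ac28de_co.Aut.result
  exact ⟨r1, r2, r3, fun ε ε' l => (comp_aux ε ε' l).1, card_switch,
    Pool.Agent.KS6_13.YF.card_restrictions⟩

end Pool.Agent.Results.MP_ac28de_co.FiniteLevels
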